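import Pool.Agent.helper40.SU.All
import Pool.Agent.helper40.SU.Last

/-!
# MP_c66272_nt: almost every nonnegative integer is admissible in Sun's 1680 conjecture

The theorem proves that the set of the nonnegative integers `n` which are not of the form
`n = x² + y² + z² + w²` with `x⁴ + 1680 y³ z` a perfect square has density `0`.
-/

set_option autoImplicit false

namespace Pool.Agent.Results.MP_c66272_nt.AlmostAll

theorem result :
    Filter.Tendsto (fun X : ℕ => (({n : ℕ | n < X ∧ ¬ ∃ x y z w : ℕ,
        n = x ^ 2 + y ^ 2 + z ^ 2 + w ^ 2 ∧ IsSquare (x ^ 4 + 1680 * y ^ 3 * z)}.ncard : ℕ) : ℝ) / (X : ℝ))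
      Filter.atTop (nhds 0) :=
  Pool.Agent.SU.LST Pool.Agent.SU.a_T3S Pool.Agent.SU.a_FIN

end Pool.Agent.Results.MP_c66272_nt.AlmostAll
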